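import Pool.Agent.H500.ED.Stm
import Pool.Agent.H500.R2.Gal

set_option autoImplicit false
set_option linter.unusedSectionVars false

/-!
# Project ED (helper500), part B1: finite abelian groups
-/

namespace Pool.Agent.H618.ED.FLB

open NumberField IsDedekindDomain Filter Topology Polynomial
open Pool.Agent.W401.Cheb (GK IsFrob IsInert dens)
open Pool.Agent.H500.R2 (UnrOut frob_ex)
open Pool.Agent.Q92.AR (Dv Ray prin)
open Pool.Agent.H500.ED

/-- the characters separate the points of a finite abelian group -/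
theorem sep (B : Type) [CommGroup B] [Finite B] : ∃ κ : B → (B →* ℂˣ), ∀ x y : B,
    (∀ b, κ b x = κ b y) → x = y := by
  have h : ∀ b : B, ∃ φ : B →* ℂˣ, b ≠ 1 → φ b ≠ 1 := by
    intro b
    by_cases hb : b = 1
    · exact ⟨1, fun h => absurd hb h⟩
    · obtain ⟨φ, hφ⟩ := CommGroup.exists_apply_ne_one_of_hasEnoughRootsOfUnity B ℂ hb
      exact ⟨φ, fun _ => hφ⟩
  choose κ hκ using h
  refine ⟨κ, fun x y hxy => ?_⟩
  by_contra hne
  have h1 : x * y⁻¹ ≠ 1 := fun h => hne (mul_inv_eq_one.1 h)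
  refine hκ _ h1 ?_
  rw [map_mul, map_inv, hxy, mul_inv_cancel]

theorem main : S_CND → S_FLB := by
  intro hC K _ _ A hA B _ _ c hc
  classical
  obtain ⟨κ, hκ⟩ := sep B
  have h1 : ∀ b : B, ∃ θ : GK K →* ℂˣ, IsOpen (θ.ker : Set (GK K)) ∧ UnrOut A θ.ker ∧
      ∀ v : HeightOneSpectrum (𝓞 K), (A : 𝓞 K) ∉ v.asIdeal → ∀ s, IsFrob v s →
        Additive.ofMul (θ s) =
          Additive.ofMul (κ b (Additive.toMul (c (Finsupp.single v 1)))) := by
    intro b
    exact hC K A hA ((MonoidHom.toAdditive (κ b)).comp c) (fun x hx => by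
      rw [AddMonoidHom.comp_apply, hc x hx, map_zero])
  choose θ hθo hθu hθf using h1
  set U : Subgroup (GK K) := ⨅ b, (θ b).ker with hU
  have hUo : IsOpen (U : Set (GK K)) := by
    rw [hU, Subgroup.coe_iInf]
    exact isOpen_iInter_of_finite fun b => hθo b
  have hUn : U.Normal := Subgroup.normal_iInf_normal fun b => inferInstance
  have key : ∀ g : GK K, ∃ x : B, ∀ b, κ b x = θ b g := by
    intro g
    obtain ⟨v, σ, hv, hσ, hgσ⟩ := frob_ex U hUn hUo g hA
    refine ⟨Additive.toMul (c (Finsupp.single v 1)), fun b => ?_⟩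
    have h2 := hθf b v hv σ hσ
    have h3 : g⁻¹ * σ ∈ (θ b).ker := (Subgroup.mem_iInf.1 hgσ) b
    rw [MonoidHom.mem_ker, map_mul, map_inv, inv_mul_eq_one] at h3
    rw [h3]
    exact (Additive.ofMul.injective h2).symm
  choose Th hTh using key
  let Θ : GK K →* B :=
    { toFun := Th
      map_one' := hκ _ _ fun b => by rw [hTh, map_one, map_one]
      map_mul' := fun g h => hκ _ _ fun b => by rw [hTh, map_mul, map_mul, hTh, hTh] }
  have hker : Θ.ker = U := by
    ext g
    rw [MonoidHom.mem_ker, hU, Subgroup.mem_iInf]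
    constructor
    · intro h b
      have h2 : Th g = 1 := h
      rw [MonoidHom.mem_ker, ← hTh, h2, map_one]
    · intro h
      refine hκ _ _ fun b => ?_
      have h2 := h b
      rw [MonoidHom.mem_ker] at h2
      change κ b (Th g) = κ b 1
      rw [hTh, h2, map_one]
  refine ⟨Θ, by rw [hker]; exact hUo, fun v hv σ hσ => ?_, fun v hv s hs => ?_⟩
  · rw [hker, hU, Subgroup.mem_iInf]
    exact fun b => hθu b v hv σ hσ
  · have h2 : Th s = Additive.toMul (c (Finsupp.single v 1)) := hκ _ _ fun b => by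
      rw [hTh]
      exact Additive.ofMul.injective (hθf b v hv s hs)
    change Additive.ofMul (Th s) = _
    rw [h2]
    rfl

end Pool.Agent.H618.ED.FLB
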